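import Pool.Agent.H630VC.Avg4

/-!
# Monotone real circuits for linear feasibility
-/

set_option autoImplicit false

open scoped Classical

namespace Pool.Agent.W888.LPM

open Finset H630VC

/-- the rows: pairs of variables, variables, and one more row -/
abbrev Row (n : ℕ) : Type := (Fin n × Fin n) ⊕ (Fin n ⊕ Unit)

/-- the matrix: the row of `(u, v)` is `x u + x v` (or `x u` if `u = v`), the row of `v` is `x v`,
and the last row is `- ∑ v, x v` -/
def mat (n : ℕ) : Row n → Fin n → ℝ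
  | .inl (u, v), w => if w = u ∨ w = v then 1 else 0
  | .inr (.inl v), w => if w = v then 1 else 0
  | .inr (.inr _), _ => -1

/-- the system `A x ≥ b` has a real solution -/
def Feasible {I J : Type} [Fintype J] (A : I → J → ℝ) (b : I → ℝ) : Prop :=
  ∃ x : J → ℝ, ∀ i, b i ≤ ∑ j, A i j * x j

/-- the right-hand side with the last row `- ∑ v, x v ≥ -c` relaxed to `- ∑ v, x v ≥ -ρ c` -/
def relax {n : ℕ} (ρ : ℝ) (b : Row n → ℝ) : Row n → ℝ
  | .inl e => b (.inl e)
  | .inr (.inl v) => b (.inr (.inl v))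
  | .inr (.inr u) => ρ * b (.inr (.inr u))

/-- inputs of the circuits: the coordinates of the right-hand side, and constants -/
def rhsInputs (I : Type) : Set ((I → ℝ) → ℝ) :=
  {f | (∃ i, f = fun b => b i) ∨ ∃ c : ℝ, f = fun _ => c}

/-- the right-hand side of a graph -/
noncomputable def rhs {n : ℕ} (c : ℕ) (G : SimpleGraph (Fin n)) : Row n → ℝ
  | .inl (u, v) => edgeBit u v G
  | .inr (.inl _) => 0
  | .inr (.inr _) => -c

theorem rhs_inputs {n : ℕ} (c : ℕ) : ∀ f ∈ rhsInputs (Row n),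
    (fun G : SimpleGraph (Fin n) => f (rhs c G)) ∈ graphInputs (Fin n) := by
  rintro f (⟨i, rfl⟩ | ⟨z, rfl⟩)
  · rcases i with ⟨u, v⟩ | v | u
    · exact Or.inl ⟨u, v, rfl⟩
    · exact Or.inr ⟨0, rfl⟩
    · exact Or.inr ⟨-c, rfl⟩
  · exact Or.inr ⟨z, rfl⟩

theorem rhs_int {n : ℕ} (hn : 1 ≤ n) (c : ℕ) (hc : c ≤ n) (G : SimpleGraph (Fin n)) (i : Row n) :
    ∃ z : ℤ, rhs c G i = z ∧ |z| ≤ n := by
  rcases i with ⟨u, v⟩ | v | u
  · by_cases h : G.Adj u v
    · refine ⟨1, ?_, by simpa using hn⟩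
      simp [rhs, edgeBit, h]
    · refine ⟨0, ?_, by simp⟩
      simp [rhs, edgeBit, h]
  · exact ⟨0, by simp [rhs], by simp⟩
  · refine ⟨-c, by simp [rhs], ?_⟩
    rw [abs_neg, Nat.abs_cast]
    exact_mod_cast hc

theorem row_pair {n : ℕ} (x : Fin n → ℝ) (u v : Fin n) (h : u ≠ v) :
    ∑ w, mat n (.inl (u, v)) w * x w = x u + x v := by
  have e : ∀ w, mat n (.inl (u, v)) w * x w = (if w = u then x w else 0) +
      (if w = v then x w else 0) := by
    intro w
    simp only [mat]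
    by_cases h1 : w = u
    · have h2 : w ≠ v := fun h3 => h (h1.symm.trans h3)
      simp [h1, h]
    · by_cases h2 : w = v
      · simp [h2, h1, h.symm]
      · simp [h1, h2]
  rw [Finset.sum_congr rfl fun w _ => e w, Finset.sum_add_distrib]
  simp

theorem row_diag {n : ℕ} (x : Fin n → ℝ) (u : Fin n) :
    ∑ w, mat n (.inl (u, u)) w * x w = x u := by
  simp [mat]

theorem row_var {n : ℕ} (x : Fin n → ℝ) (v : Fin n) :
    ∑ w, mat n (.inr (.inl v)) w * x w = x v := by
  simp [mat]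

theorem row_last {n : ℕ} (x : Fin n → ℝ) (u : Unit) :
    ∑ w, mat n (.inr (.inr u)) w * x w = -∑ w, x w := by
  simp [mat]

/-- small vertex covers give solutions -/
theorem feasible_touch {n : ℕ} (c : ℕ) (T : Finset (Fin n)) (hT : T.card ≤ c) :
    Feasible (mat n) (rhs c (touchGraph T)) := by
  refine ⟨fun v => if v ∈ T then 1 else 0, ?_⟩
  have h0 : ∀ v : Fin n, (0 : ℝ) ≤ if v ∈ T then 1 else 0 := fun v => by split_ifs <;> norm_num
  rintro (⟨u, v⟩ | v | u)
  · by_cases huv : u = v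
    · subst huv
      rw [row_diag]
      have : rhs c (touchGraph T) (.inl (u, u)) = 0 := by simp [rhs, edgeBit]
      rw [this]
      exact h0 u
    · rw [row_pair _ _ _ huv]
      by_cases h : (touchGraph T).Adj u v
      · have e : rhs c (touchGraph T) (.inl (u, v)) = 1 := by simp [rhs, edgeBit, h]
        rw [e]
        rcases h.2 with h1 | h1
        · rw [if_pos h1]
          linarith [h0 v]
        · rw [if_pos h1]
          linarith [h0 u]
      · have e : rhs c (touchGraph T) (.inl (u, v)) = 0 := by simp [rhs, edgeBit, h]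
        rw [e]
        linarith [h0 u, h0 v]
  · rw [row_var]
    exact h0 v
  · rw [row_last]
    have e : ∑ w : Fin n, (if w ∈ T then (1 : ℝ) else 0) = T.card := by simp
    rw [e]
    simp only [rhs]
    have : (T.card : ℝ) ≤ c := by exact_mod_cast hT
    linarith

/-- graphs which contain few large cliques covering all vertices have no solutions -/
theorem not_feasible_class {n : ℕ} (hn : 1 ≤ n) (c : ℕ) (ρ : ℝ) (hc : ρ * c ≤ n / 4)
    (G : SimpleGraph (Fin n)) (A : ℕ) (β : Fin n → Fin A) (hA : (A : ℝ) ≤ n / 8)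
    (hG : classGraph β ≤ G) : ¬ Feasible (mat n) (relax ρ (rhs c G)) := by
  rintro ⟨x, hx⟩
  have hx0 : ∀ v, 0 ≤ x v := by
    intro v
    have := hx (.inr (.inl v))
    rw [row_var] at this
    simpa [relax, rhs] using this
  have hsum : ∑ v, x v ≤ ρ * c := by
    have := hx (.inr (.inr ()))
    rw [row_last] at this
    simp only [relax, rhs] at this
    linarith
  have hcov : ∀ u v, G.Adj u v → u ∈ (univ.filter fun v => 1 / 2 ≤ x v) ∨
      v ∈ (univ.filter fun v => 1 / 2 ≤ x v) := by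
    intro u v huv
    have h1 := hx (.inl (u, v))
    rw [row_pair _ _ _ (G.ne_of_adj huv)] at h1
    have e : relax ρ (rhs c G) (.inl (u, v)) = 1 := by simp [relax, rhs, edgeBit, huv]
    rw [e] at h1
    by_contra hcon
    push Not at hcon
    have h2 : ¬ 1 / 2 ≤ x u := fun h => hcon.1 (Finset.mem_filter.2 ⟨mem_univ _, h⟩)
    have h3 : ¬ 1 / 2 ≤ x v := fun h => hcon.2 (Finset.mem_filter.2 ⟨mem_univ _, h⟩)
    push Not at h2 h3
    linarith
  have hcard := card_cover_classGraph β (univ.filter fun v => 1 / 2 ≤ x v)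
    (fun u v huv => hcov u v (hG huv))
  rw [Fintype.card_fin] at hcard
  have h1 : ((univ.filter fun v => 1 / 2 ≤ x v).card : ℝ) / 2 ≤ ∑ v, x v := by
    calc ((univ.filter fun v => 1 / 2 ≤ x v).card : ℝ) / 2
        = ∑ v ∈ univ.filter (fun v => 1 / 2 ≤ x v), (1 / 2 : ℝ) := by
          rw [Finset.sum_const, nsmul_eq_mul]
          ring
      _ ≤ ∑ v ∈ univ.filter (fun v => 1 / 2 ≤ x v), x v :=
          Finset.sum_le_sum fun v hv => (Finset.mem_filter.1 hv).2
      _ ≤ ∑ v, x v := Finset.sum_le_sum_of_subset_of_nonneg (Finset.subset_univ _)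
          fun v _ _ => hx0 v
  have h2 : (n : ℝ) ≤ ((univ.filter fun v => 1 / 2 ≤ x v).card : ℝ) + A := by
    exact_mod_cast hcard
  have h3 : (1 : ℝ) ≤ n := by exact_mod_cast hn
  linarith

theorem main (η : ℝ) (hη : 0 < η) (hη2 : η ≤ 1 / 2) :
    ∃ N : ℕ, ∀ n : ℕ, N ≤ n → ∀ ρ : ℝ, 1 ≤ ρ → ∀ (R : Type) [Fintype R] [Nonempty R]
      (l : R → List ((Row n → ℝ) → ℝ)) (q : R → List (List (((Row n → ℝ) → ℝ) × ℝ)))
      (f : R → (Row n → ℝ) → ℝ) (θ : ℝ),
      (∀ r, FProg (rhsInputs (Row n)) (l r) (q r)) → (∀ r, f r ∈ l r) →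
      (∀ r, ρ * combos (q r) ≤ (n : ℝ) ^ (1 / 2 - η)) →
      (∀ b : Row n → ℝ, (∀ i, ∃ z : ℤ, b i = z ∧ |z| ≤ n) → Feasible (mat n) b →
        3 * Fintype.card R ≤ 4 * (univ.filter fun r => f r b < θ).card) →
      (∀ b : Row n → ℝ, (∀ i, ∃ z : ℤ, b i = z ∧ |z| ≤ n) → ¬ Feasible (mat n) (relax ρ b) →
        3 * Fintype.card R ≤ 4 * (univ.filter fun r => θ ≤ f r b).card) →
      ∃ r, (2 : ℝ) ^ ((n : ℝ) ^ (η / 4)) ≤ (l r).length + wires (q r) := by
  obtain ⟨N, hN⟩ := asymp_params (16 * 10 ^ 5) (1 / 2 - η) (η / 4) (η / 4) (by norm_num)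
    (by positivity) (by positivity) (by linarith)
  refine ⟨N, fun n hn ρ hρ R _ _ l q f θ hp hf hP hyes hno => ?_⟩
  obtain ⟨hn2, L, hL, hY, hsz⟩ := hN n hn
  by_contra hlt
  push Not at hlt
  have hρ0 : 0 < ρ := by linarith
  set P : ℕ := ⌊(n : ℝ) ^ (1 / 2 - η) / ρ⌋₊ with hPdef
  have hcomb : ∀ r, combos (q r) ≤ P := by
    intro r
    apply Nat.le_floor
    rw [le_div_iff₀ hρ0]
    have := hP r
    linarith
  have hP1 : 1 ≤ P := by
    obtain ⟨r⟩ := ‹Nonempty R›
    exact (one_le_prod (q r)).trans (hcomb r)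
  have hPle : ρ * (P : ℝ) ≤ (n : ℝ) ^ (1 / 2 - η) := by
    have h1 : (P : ℝ) ≤ (n : ℝ) ^ (1 / 2 - η) / ρ := Nat.floor_le (by positivity)
    rw [le_div_iff₀ hρ0] at h1
    linarith
  have hn1 : 1 ≤ n := by omega
  have hnR : (1 : ℝ) ≤ n := by exact_mod_cast hn1
  set c : ℕ := ⌊(n : ℝ) / (4 * ρ)⌋₊ with hc
  have hcle : (c : ℝ) ≤ n / (4 * ρ) := Nat.floor_le (by positivity)
  have hcn : c ≤ n := by
    have h1 : (n : ℝ) / (4 * ρ) ≤ n := by
      rw [div_le_iff₀ (by positivity)]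
      nlinarith
    exact_mod_cast hcle.trans h1
  have hρc : ρ * c ≤ n / 4 := by
    calc ρ * (c : ℝ) ≤ ρ * (n / (4 * ρ)) := by gcongr
      _ = n / 4 := by field_simp
  refine engine2 n L P 1 ρ hL hP1 le_rfl hρ ?_
    (fun r => (l r).map fun f => fun G : SimpleGraph (Fin n) => f (rhs c G))
    (fun r => (q r).map fun w => w.map fun p =>
      ((fun G : SimpleGraph (Fin n) => p.1 (rhs c G)), p.2))
    (fun r G => f r (rhs c G))
    (fun r => FProg.comap (inp' := graphInputs (Fin n))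
      (fun G : SimpleGraph (Fin n) => rhs c G) (rhs_inputs c) (hp r))
    (fun r => List.mem_map.2 ⟨f r, hf r, rfl⟩) ?_ ?_ θ ?_ ?_
  · calc 16 * 10 ^ 5 * (1 * ρ) * (L : ℝ) ^ 3 * ((Nat.log 2 n : ℝ) + 1) * P
        = 16 * 10 ^ 5 * (L : ℝ) ^ 3 * ((Nat.log 2 n : ℝ) + 1) * (ρ * P) := by ring
      _ ≤ _ := hY _ (by positivity) hPle
  · intro r
    rw [combos_map (fun G : SimpleGraph (Fin n) => rhs c G) (q r)]
    exact hcomb r
  · intro r
    rw [List.length_map, wires_map (fun G : SimpleGraph (Fin n) => rhs c G) (q r)]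
    have h1 := hsz ((l r).length + wires (q r)) (by push_cast; exact hlt r)
    omega
  · intro G A β hA hG
    rw [mul_one] at hA
    exact hno (rhs c G) (rhs_int hn1 c hcn G) (not_feasible_class hn1 c ρ hρc G A β hA hG)
  · intro T hT
    refine quarter_of_three (hyes (rhs c (touchGraph T)) (rhs_int hn1 c hcn _)
      (feasible_touch c T (Nat.le_floor hT))) fun r h1 h2 => ?_
    exact absurd h1 (not_lt.2 h2)

end Pool.Agent.W888.LPM
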